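import Pool.Agent.Helper16.SD.GoalsE
import Pool.Agent.Helper17.TH.EXT
import Pool.Agent.Helper80.TH.SPL
import Pool.Agent.Helper40.RD.TRF

/-!
# Packet SD-B_RAM (MP_fc6b1e_nt): the extension `L/F` is unramified outside `B`
-/

set_option autoImplicit false

namespace Pool.Agent.Helper71.SD.B_RAM

open NumberField Module IsDedekindDomain
open Pool.Agent.Helper51.SigLeo Pool.Agent.Helper51.RP Pool.Agent.Helper51.REC
open Pool.Agent.Helper38.FW (InDec)
open Pool.Agent.Helper40.RS (bel lies)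
open Pool.Agent.Helper40.RD (valW ordW bel_of_above)
open Pool.Agent.Helper32.RDV (PI mem_PI norm_int_le wt)
open Pool.Agent.Helper16.SD

/-- An element of the ring of integers outside the prime has valuation one. -/
theorem val_eq_one {M : Type} [Field M] [NumberField M] (w : HeightOneSpectrum (𝓞 M)) (p : ℕ)
    (h : ((p : ℕ) : 𝓞 M) ∉ w.asIdeal) : w.valuation M (p : M) = 1 := by
  have h1 : w.valuation M (p : M) ≤ 1 := by
    have := w.valuation_le_one (K := M) ((p : ℕ) : 𝓞 M)
    simpa using this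
  have h2 : ¬ w.valuation M (p : M) < 1 := by
    intro h3
    apply h
    rw [← w.valuation_lt_one_iff_mem (K := M)]
    simpa using h3
  exact le_antisymm h1 (not_lt.1 h2)

/-- The case of a prime which is prime to `p`. -/
theorem case_out (p : ℕ) (K : Type) [Field K] [NumberField K]
    (F R : IntermediateField K (AlgebraicClosure K)) [NumberField F] [NumberField R]
    (hR : ∀ W : HeightOneSpectrum (𝓞 R), W.valuation R (p : R) = 1 →
      ∃ π : R, (π : AlgebraicClosure K) ∈ F ∧ ordv W π = 1)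
    (L : Type) [Field L] [NumberField L] [Algebra F L]
    (v : L →+* AlgebraicClosure K) (hv : ∀ x : F, v (algebraMap F L x) = x) (hvR : ∀ x, v x ∈ R)
    (w : HeightOneSpectrum (𝓞 L)) (hp : w.valuation L (p : L) = 1) :
    (bel F w).asIdeal.ramificationIdx' w.asIdeal = 1 := by
  let vR : L →+* R := v.codRestrict R hvR
  let _ : Algebra L R := vR.toAlgebra
  obtain ⟨Q, hQ⟩ := Pool.Agent.Helper70.PW.exists_above (E := R) w
  have hbQ : bel L Q = w := by
    apply HeightOneSpectrum.ext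
    exact hQ
  have hQp : Q.valuation R (p : R) = 1 := by
    have h1 := valW (M := L) (M₁ := R) Q (p : L)
    rw [hbQ, hp, one_pow, map_natCast] at h1
    exact h1
  obtain ⟨π, hπF, hπ⟩ := hR Q hQp
  have h2 : algebraMap L R (algebraMap F L ⟨π, hπF⟩) = π := by
    apply Subtype.ext
    exact hv ⟨π, hπF⟩
  have h3 := ordW (M := L) (M₁ := R) Q (algebraMap F L ⟨π, hπF⟩)
  rw [h2, hπ, hbQ, ordW (M := F) (M₁ := L) w] at h3
  have h4 : (((bel F w).asIdeal.ramificationIdx' w.asIdeal : ℕ) : ℤ) ∣ 1 := by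
    rw [h3]
    exact (Dvd.intro _ rfl).mul_left _
  have h5 : ((bel F w).asIdeal.ramificationIdx' w.asIdeal) ∣ 1 := by exact_mod_cast h4
  exact Nat.dvd_one.1 h5

/-- The decomposition group is trivial at a prime above `p` outside `B`. -/
theorem free_in (p : ℕ) [Fact p.Prime] (K : Type) [Field K] [NumberField K]
    (F : IntermediateField K (AlgebraicClosure K)) [NumberField F]
    (L : Type) [Field L] [NumberField L] [Algebra F L]
    (v : L →+* AlgebraicClosure K) (hv : ∀ x : F, v (algebraMap F L x) = x)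
    (B : Set (K →+* ℂ_[p]))
    (hB : ∀ τ : AlgebraicClosure K →+* ℂ_[p],
      τ.comp (algebraMap K (AlgebraicClosure K)) ∉ B → ∀ g, (∀ x ∈ F, g x = x) → InDec τ g →
        ∀ x : L, g (v x) = v x)
    (w : HeightOneSpectrum (𝓞 L)) (W : HeightOneSpectrum (𝓞 F)) (hw : Above w W)
    (hW : ∀ τ ∈ (above B : Set (F →+* ℂ_[p])), ¬ PrimeOf τ W)
    (hp : w.valuation L (p : L) < 1) : FreeP F w := by
  have hne : Nonempty (AlgebraicClosure ℚ →+* ℂ_[p]) :=
    Pool.Agent.Helper30.PW.nonempty_hom ℚ ℂ_[p]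
  obtain ⟨τL, hτL⟩ := Pool.Agent.Helper70.PW.l_prm p ℂ_[p] hne L w hp
  have hlt : ∀ x : L, w.valuation L x < 1 ↔ ‖τL x‖ < 1 := by
    intro x
    have h1 := hτL 1 x
    rw [map_one, map_one, norm_one] at h1
    rw [← not_le, h1, not_le]
  let _ : Algebra L (AlgebraicClosure K) := v.toAlgebra
  have iQK : Algebra.IsAlgebraic ℚ (AlgebraicClosure K) :=
    Algebra.IsAlgebraic.trans ℚ K (AlgebraicClosure K)
  have iT : IsScalarTower F L (AlgebraicClosure K) :=
    IsScalarTower.of_algebraMap_eq fun x => (hv x).symm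
  have iG0 : IsGalois K (AlgebraicClosure K) := inferInstance
  have iGF : IsGalois F (AlgebraicClosure K) :=
    IsGalois.tower_top_of_isGalois K F (AlgebraicClosure K)
  have iGL : IsGalois L (AlgebraicClosure K) :=
    IsGalois.tower_top_of_isGalois F L (AlgebraicClosure K)
  have hal : Algebra.IsAlgebraic L (AlgebraicClosure K) := inferInstance
  obtain ⟨τ, hτ⟩ := Pool.Agent.Helper17.TH.ext_emb L (AlgebraicClosure K) τL
  have hτx : ∀ x : L, τ (v x) = τL x := fun x => DFunLike.congr_fun hτ x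
  have hnB : τ.comp (algebraMap K (AlgebraicClosure K)) ∉ B := by
    intro hmem
    refine hW (τ.comp (algebraMap F (AlgebraicClosure K))) hmem ?_
    intro x
    have h1 : x ∈ W.asIdeal ↔ algebraMap (𝓞 F) (𝓞 L) x ∈ w.asIdeal := by
      rw [← hw]
      rfl
    rw [h1, ← w.valuation_lt_one_iff_mem (K := L)]
    have h3 : (τ.comp (algebraMap F (AlgebraicClosure K))) (x : F) = τL (algebraMap F L (x : F)) := by
      rw [← hτx, hv]
      rfl
    rw [h3, ← hlt]
    exact Iff.rfl
  intro g hg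
  let G : AlgebraicClosure K ≃ₐ[F] AlgebraicClosure K := g.liftNormal (AlgebraicClosure K)
  have hG : ∀ x : L, G (v x) = v (g x) := fun x =>
    AlgEquiv.liftNormal_commutes g (AlgebraicClosure K) x
  let τG : AlgebraicClosure K →+* ℂ_[p] :=
    τ.comp (G : AlgebraicClosure K →+* AlgebraicClosure K)
  have hu : (PI τG).under (𝓞 L) = (PI τ).under (𝓞 L) := by
    ext x
    change algebraMap (𝓞 L) (𝓞 (AlgebraicClosure K)) x ∈ PI τG ↔
      algebraMap (𝓞 L) (𝓞 (AlgebraicClosure K)) x ∈ PI τ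
    rw [mem_PI, mem_PI]
    have e0 : ((algebraMap (𝓞 L) (𝓞 (AlgebraicClosure K)) x : 𝓞 (AlgebraicClosure K)) :
        AlgebraicClosure K) = v (x : L) := rfl
    have e1 : τG ((algebraMap (𝓞 L) (𝓞 (AlgebraicClosure K)) x : 𝓞 (AlgebraicClosure K)) :
        AlgebraicClosure K) = τL (g (x : L)) := by
      rw [e0, ← hτx, ← hG]
      rfl
    have e2 : τ ((algebraMap (𝓞 L) (𝓞 (AlgebraicClosure K)) x : 𝓞 (AlgebraicClosure K)) :
        AlgebraicClosure K) = τL (x : L) := by
      rw [e0, hτx]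
    rw [e1, e2, ← hlt, ← hlt, hg]
  obtain ⟨h, hh⟩ := Pool.Agent.Helper30.PW.trans_primes (E := L) (PI τG) (PI τ) hu
  have h2 : PI τG = PI (τ.comp (h : AlgebraicClosure K →+* AlgebraicClosure K)) := by
    ext b
    rw [hh]
    rfl
  have h3 : ∀ x, ‖τ (G x)‖ = ‖τ (h x)‖ := fun x =>
    Pool.Agent.Helper30.PW.norm_eq_of_PI (p := p) _ _ h2 x
  -- back to automorphisms over `K`
  let GK : AlgebraicClosure K ≃ₐ[K] AlgebraicClosure K := G.restrictScalars K
  let hF : AlgebraicClosure K ≃ₐ[F] AlgebraicClosure K := h.restrictScalars F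
  let hK : AlgebraicClosure K ≃ₐ[K] AlgebraicClosure K := hF.restrictScalars K
  have hGK : ∀ x, GK x = G x := fun x => rfl
  have hhK : ∀ x, hK x = h x := fun x => rfl
  have hinv : ∀ x, hK x = x → hK⁻¹ x = x := by
    intro x hx
    have h4 : hK⁻¹ (hK x) = x := by
      rw [← AlgEquiv.mul_apply, inv_mul_cancel]
      rfl
    rw [hx] at h4
    exact h4
  have hinv' : ∀ x, hK (hK⁻¹ x) = x := by
    intro x
    rw [← AlgEquiv.mul_apply, mul_inv_cancel]
    rfl
  have hfv : ∀ x : L, hK⁻¹ (v x) = v x := fun x => hinv _ (h.commutes x)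
  have hfF : ∀ x ∈ F, hK⁻¹ x = x := fun x hx => hinv _ (hF.commutes ⟨x, hx⟩)
  have h5 : ∀ x : L, (GK * hK⁻¹) (v x) = v x := by
    refine hB τ hnB (GK * hK⁻¹) ?_ ?_
    · intro x hx
      rw [AlgEquiv.mul_apply, hfF x hx]
      exact G.commutes ⟨x, hx⟩
    · intro x
      rw [AlgEquiv.mul_apply, hGK, h3, ← hhK, hinv']
  apply AlgEquiv.ext
  intro x
  apply v.injective
  have h6 := h5 x
  rw [AlgEquiv.mul_apply, hfv, hGK, hG] at h6
  exact h6

theorem t : Pool.Agent.Helper16.SD.B_RAM := by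
  intro p _ K _ _ F R _ _ _ _ _ hR L _ _ _ _ v hv hvR B hB W hW w hw x
  have hb : bel F w = W := bel_of_above hw
  have key : (bel F w).asIdeal.ramificationIdx' w.asIdeal = 1 := by
    by_cases hp : ((p : ℕ) : 𝓞 L) ∈ w.asIdeal
    · have hp1 : w.valuation L (p : L) < 1 := by
        have := (w.valuation_lt_one_iff_mem (K := L) ((p : ℕ) : 𝓞 L)).2 hp
        simpa using this
      exact Pool.Agent.Helper13.RD.ram_free w (free_in p K F L v hv B hB w W hw hW hp1)
    · exact case_out p K F R hR L v hv hvR w (val_eq_one w p hp)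
  rw [ordW, key, hb]
  simp

end Pool.Agent.Helper71.SD.B_RAM
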