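import Pool.Agent.Helper16.SD.GoalsS
import Pool.Agent.Helper51.SigLeo.Core

/-!
# Packet SD-R_KD (MP_fc6b1e_nt): from the rank of the matrix to the dimension of the kernel
-/

set_option autoImplicit false

namespace Pool.Agent.Helper71.SD.R_KD

open NumberField Module IsDedekindDomain TensorProduct
open Pool.Agent.Helper51.SigLeo Pool.Agent.Helper51.RP Pool.Agent.Helper51.REC
open Pool.Agent.Helper16.SD

theorem t : Pool.Agent.Helper16.SD.R_KD := by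
  intro K _ _ p _ ιp Lg F _ _ _ _ _ E _ _ lam χ' s hs d u a σ Z hZ
  classical
  set χ : (F ≃ₐ[K] F) →* ℂ_[p]ˣ :=
    (Units.map ((ιp.comp lam : E →+* ℂ_[p]) : E →* ℂ_[p])).comp χ' with hχ
  have hχv : ∀ g, ((χ g : ℂ_[p]ˣ) : ℂ_[p]) = ιp (lam ((χ' g : Eˣ) : E)) := fun g => rfl
  let v : Fin d → ℂ_[p] ⊗[ℤ] Additive (𝓞 F)ˣ := fun r =>
    ∑ g : F ≃ₐ[K] F, ιp (lam ((χ' g⁻¹ : Eˣ) : E)) ⊗ₜ[ℤ] unitsHom g (u r)
  have hv : ∀ r, v r ∈ gPart χ := by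
    intro r h
    show extEnd (unitsHom h) (∑ g : F ≃ₐ[K] F, ιp (lam ((χ' g⁻¹ : Eˣ) : E)) ⊗ₜ[ℤ]
      unitsHom g (u r)) = ((χ h : ℂ_[p]ˣ) : ℂ_[p]) • ∑ g : F ≃ₐ[K] F,
        ιp (lam ((χ' g⁻¹ : Eˣ) : E)) ⊗ₜ[ℤ] unitsHom g (u r)
    rw [map_sum, Finset.smul_sum]
    refine Fintype.sum_equiv (Equiv.mulLeft h) _ _ fun g => ?_
    rw [extEnd_tmul, Equiv.coe_mulLeft, TensorProduct.smul_tmul', unitsHom_mul, smul_eq_mul]
    congr 1
    have hk : χ' g⁻¹ = χ' h * χ' (h * g)⁻¹ := by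
      rw [mul_inv_rev, map_mul, map_inv χ' h, mul_comm (χ' g⁻¹), ← mul_assoc, mul_inv_cancel,
        one_mul]
    rw [hχv, ← map_mul, ← map_mul, ← Units.val_mul, ← hk]
  let L : gPart χ →ₗ[ℂ_[p]] (Fin a → ℂ_[p]) :=
    LinearMap.pi fun q => (extHom (logUnits Lg (ιp.comp (s (σ q))))).domRestrict (gPart χ)
  have hL : ∀ r q, L ⟨v r, hv r⟩ q =
      ∑ g, ιp (lam ((χ' g⁻¹ : Eˣ) : E)) * logUnits Lg (ιp.comp (s (σ q))) (unitsHom g (u r)) := by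
    intro r q
    show extHom (logUnits Lg (ιp.comp (s (σ q)))) (∑ g : F ≃ₐ[K] F,
      ιp (lam ((χ' g⁻¹ : Eˣ) : E)) ⊗ₜ[ℤ] unitsHom g (u r)) = _
    rw [map_sum]
    exact Finset.sum_congr rfl fun g _ => extHom_tmul _ _ _
  have h1 : Matrix.rank (fun (r : Fin d) (q : Fin a) ↦
      ∑ g, ιp (lam ((χ' g⁻¹ : Eˣ) : E)) * logUnits Lg (ιp.comp (s (σ q))) (unitsHom g (u r))) ≤
      finrank ℂ_[p] (LinearMap.range L) := by
    rw [Matrix.rank_eq_finrank_span_row]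
    refine Submodule.finrank_mono (Submodule.span_le.2 ?_)
    rintro _ ⟨r, rfl⟩
    exact ⟨⟨v r, hv r⟩, funext fun q => hL r q⟩
  have h2 : finrank ℂ_[p] (gPart χ ⊓ Z : Submodule ℂ_[p] (ℂ_[p] ⊗[ℤ] Additive (𝓞 F)ˣ)) ≤
      finrank ℂ_[p] (LinearMap.ker L) := by
    let j : (gPart χ ⊓ Z : Submodule ℂ_[p] (ℂ_[p] ⊗[ℤ] Additive (𝓞 F)ˣ)) →ₗ[ℂ_[p]]
        LinearMap.ker L :=
      { toFun := fun x => ⟨⟨x.1, x.2.1⟩, by
          rw [LinearMap.mem_ker]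
          funext q
          refine hZ x.1 x.2.2 (ιp.comp (s (σ q))) ⟨q, ?_⟩
          rw [RingHom.comp_assoc, hs]⟩
        map_add' := fun _ _ => rfl
        map_smul' := fun _ _ => rfl }
    refine LinearMap.finrank_le_finrank_of_injective (f := j) ?_
    intro x y hxy
    have h3 : ((j x).1 : ℂ_[p] ⊗[ℤ] Additive (𝓞 F)ˣ) = (j y).1 :=
      congrArg (fun z : LinearMap.ker L => (z.1 : ℂ_[p] ⊗[ℤ] Additive (𝓞 F)ˣ)) hxy
    exact Subtype.ext h3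
  have h3 := LinearMap.finrank_range_add_finrank_ker L
  omega

end Pool.Agent.Helper71.SD.R_KD
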