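import Pool.Agent.Helper71.SD.Goals

namespace Pool.Agent.Helper71.SD

open Pool.Agent.Helper71.AHtpy SimpleGraph

theorem tn_of_adj {s t : BV} (h : BG.Adj s t) : TN s.1 t.1 := Or.inr h.2

/-- PACKET AMB. -/
theorem amb (h1 : S_TW1) (h2 : S_TW2) (h3 : S_TW3) (h4 : S_TW4) (h5 : S_TW5) : S_AMB := by
  refine ⟨{
    b := fun y => ⟨.base y, trivial⟩
    b_inj := ?_
    b_adj := ?_
    ft := fun v => footT v.1
    ft_b := fun y => rfl
    nbr := ?_
    ft_nbr := ?_
    no_lift := ?_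
    eta := fun v => etaT v.1
    eta_b := fun y => rfl
    eta_lip := fun v w h => h2.1 v.1 w.1 v.2 w.2 (tn_of_adj h)
    F := fun v => extT rk0 v.1
    F_b := fun S hS a => by
      push_cast
      exact (h1.1 S hS a).1
    F_lip := ?_
    F_top := ?_
    F' := fun v => extT rk1 v.1
    F'_b := fun S hS a => by
      push_cast
      exact (h1.1 S hS a).2
    F'_lip := ?_
    F'_top := ?_
    att := h5 }⟩
  · intro y y' h
    have := congrArg Subtype.val h
    exact T.base.inj this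
  · intro y y' h
    refine ⟨?_, Or.inl (TE.base y y' h)⟩
    intro he
    have := T.base.inj (congrArg Subtype.val he)
    exact h.1 this
  · intro S hS v hv
    rcases h3.1 S hS v.1 hv.2 with ⟨T', hT', he⟩ | h
    · exact Or.inl ⟨T', hT', Subtype.ext he⟩
    · exact Or.inr h
  · intro v S y hv hadj
    exact h3.2.1 v.1 S y hv hadj.2
  · rintro ⟨φ, hφ1, hφ2⟩
    exact h4 ⟨fun S => (φ S).1, fun S hS => ⟨(φ S).2, hφ1 S hS⟩,
      fun S S' hS hS' h => (hφ2 S S' hS hS' h).2⟩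
  · intro v w h hv hw
    exact (h2.2 rk0 (fun y y' h => (h1.2.1 y y' h).1) (fun y => (h1.2.2 y).1)).1
      v.1 w.1 v.2 w.2 (tn_of_adj h) hv hw
  · intro v hv
    exact (h2.2 rk0 (fun y y' h => (h1.2.1 y y' h).1) (fun y => (h1.2.2 y).1)).2 v.1 hv
  · intro v w h hv hw
    exact (h2.2 rk1 (fun y y' h => (h1.2.1 y y' h).2) (fun y => (h1.2.2 y).2)).1
      v.1 w.1 v.2 w.2 (tn_of_adj h) hv hw
  · intro v hv
    exact (h2.2 rk1 (fun y y' h => (h1.2.1 y y' h).2) (fun y => (h1.2.2 y).2)).2 v.1 hv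

end Pool.Agent.Helper71.SD
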