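import Pool.Agent.Helper71.SD.Goals

namespace Pool.Agent.Helper71.SD

open Pool.Agent.Helper71.AHtpy SimpleGraph

/-- PACKET SPH. -/
theorem sph_exists (h1 : S_SHF) (h2 : S_SPHG) (h3 : S_SPHE) : S_SPH := by
  intro V G A
  have : Finite (C0 × (E → Fin 3)) := h1.1
  obtain ⟨hg, hfree⟩ := h1.2 V G A
  obtain ⟨L, Φ, c, hΦ0, hΦm, hΦn, hΦc, hΦb⟩ := A.att _ shell _ hg hfree
  obtain ⟨hm, hfar⟩ := h2 V G A L Φ c hΦ0 hΦm hΦn hΦc
  refine ⟨pt 6 c 0, ⟨sph L Φ, hm, L + 7, ?_⟩, h3 V G A L Φ hΦ0 hΦb⟩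
  rintro z ⟨i, hi⟩
  apply hfar
  have h4 : (max (-z i) (z i - 1)).toNat ≤ dd z :=
    Finset.le_sup (f := fun i => (max (-z i) (z i - 1)).toNat) (Finset.mem_univ i)
  have h5 : L + 7 ≤ (max (-z i) (z i - 1)).toNat := by
    push_cast at hi
    rcases le_or_gt 0 (z i) with h | h
    · rw [abs_of_nonneg h] at hi; omega
    · rw [abs_of_neg h] at hi; omega
  exact h5.trans h4

theorem not_essA_const {V : Type} {G : SimpleGraph V} (A : Amb G)
    (x₀ : Quotient (suspSetoid V 6)) : ¬ EssA A (fun _ => x₀) := by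
  rintro ⟨π, w, -, -, ⟨z, -, hz⟩, z', -, hz'⟩
  have h1 : lev x₀ = 0 := hz
  have h2 : lev x₀ = 6 := hz'
  omega

/-- PACKET EFIN. -/
theorem efin : S_EFIN := by
  intro V G A x₀
  refine ⟨not_essA_const A x₀, fun f => ⟨?_, ?_⟩⟩
  · obtain ⟨N, hN⟩ := f.bounded
    apply Set.Finite.subset (Set.finite_Icc (fun _ : Fin 60 => -((N : ℤ) + 1))
      (fun _ : Fin 60 => (N : ℤ) + 1))
    intro z hz
    rw [Set.mem_Icc, Pi.le_def, Pi.le_def]
    by_contra hc
    have hc' : ∃ i, (N : ℤ) + 1 < |z i| := by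
      by_contra h
      push Not at h
      apply hc
      exact ⟨fun i => (abs_le.mp (h i)).1, fun i => (abs_le.mp (h i)).2⟩
    obtain ⟨i, hi⟩ := hc'
    apply not_essA_const A x₀
    have heq : (fun S : Finset E => f.toFun (z + ind S)) = fun _ => x₀ := by
      funext S
      apply hN
      refine ⟨i, ?_⟩
      have h1 : ind S i = 0 ∨ ind S i = 1 := by
        unfold ind
        split_ifs <;> simp
      rw [Pi.add_apply]
      rcases abs_cases (z i) with h | h <;> rcases abs_cases (z i + ind S i) with h' | h' <;>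
        omega
    have hz' : EssA A (fun S : Finset E => f.toFun (z + ind S)) := hz
    rwa [heq] at hz'
  · intro h
    apply Set.eq_empty_iff_forall_notMem.mpr
    intro z hz
    apply not_essA_const A x₀
    have heq : (fun S : Finset E => f.toFun (z + ind S)) = fun _ => x₀ := by
      funext S
      exact h _
    have hz' : EssA A (fun S : Finset E => f.toFun (z + ind S)) := hz
    rwa [heq] at hz'

end Pool.Agent.Helper71.SD
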