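import Pool.Agent.Helper71.SD.Final
import Pool.Agent.Helper71.SD.AmbBG
import Pool.Agent.Helper71.SD.SphEx
import Pool.Agent.Helper75.SD.XC1
import Pool.Agent.Helper62.SD.XC2
import Pool.Agent.Helper6.SD.CUB
import Pool.Agent.Helper19.SD.CONN
import Pool.Agent.Helper89.SD.ETOP
import Pool.Agent.Helper86.SD.ESQ
import Pool.Agent.Helper62.SD.EFLAT
import Pool.Agent.Helper96.SD.EROT
import Pool.Agent.Helper86.SD.THE
import Pool.Agent.Helper46.SD.L1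
import Pool.Agent.Helper66.SD.DUAL
import Pool.Agent.Helper43.SD.HOLE
import Pool.Agent.Helper43.SD.HL23
import Pool.Agent.Helper6.SD.HL4
import Pool.Agent.Helper24.SD.HL5
import Pool.Agent.Helper48.SD.HL7
import Pool.Agent.Helper43.SD.HLR
import Pool.Agent.Helper37.SD.NOUP
import Pool.Agent.Helper37.SD.NBR
import Pool.Agent.Helper37.SD.RULE
import Pool.Agent.Helper45.SD.NONE
import Pool.Agent.Helper81.SD.MIDPT
import Pool.Agent.Helper97.SD.AUTC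
import Pool.Agent.Helper98.SD.SIDE1
import Pool.Agent.Helper19.SD.SIDE2
import Pool.Agent.Helper38.SD.AUT1
import Pool.Agent.Helper99.SD.AUT2
import Pool.Agent.Helper67.SD.CNT
import Pool.Agent.Helper61.SD.FAC
import Pool.Agent.Helper43.SD.SYM
import Pool.Agent.Helper61.SD.PAR
import Pool.Agent.Helper18.SD.DEG
import Pool.Agent.Helper65.SD.SHF
import Pool.Agent.Helper28.SD.SPHG
import Pool.Agent.Helper75.SD.SPHE
import Pool.Agent.Helper93.SD.EMB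
import Pool.Agent.Helper93.SD.FREEQ
import Pool.Agent.Helper28.SD.HFUN
import Pool.Agent.Helper33.SD.HT1
import Pool.Agent.Helper26.SD.VAN
import Pool.Agent.Helper96.SD.TW1
import Pool.Agent.Helper38.SD.TW2
import Pool.Agent.Helper38.SD.TW3
import Pool.Agent.Helper19.SD.TW4
import Pool.Agent.Helper41.SD.TW5

/-!
Assembly of the disproof of `MP_dcced1_gt`.
-/

namespace Pool.Agent.Helper71.SD

open Pool.Agent.Helper71.AHtpy SimpleGraph

/-- **Disproof of `MP_dcced1_gt`, Q1.** -/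
theorem suspensions_differ : ∃ (V : Type) (X : SimpleGraph V) (n : ℕ),
    5 ≤ n ∧ ¬ WHE (Susp X (n + 1)) (Susp X n) := by
  have hXC1 : S_XC1 := XC1.xc1
  have hXC2 : S_XC2 := XC2.xc2 hXC1
  have hCONN : S_CONN := CONN.conn
  have hCUB : S_CUB := CUB.cub hXC1 hXC2
  have hTHE : S_THE := THE.the (ETOP.econst hCONN) ETOP.etop ESQ.esq EFLAT.eflat EROT.erot
  have hL1 : S_L1 := L1.l1 hXC1 hXC2
  have hDUAL : S_DUAL := DUAL.dual hXC1 hXC2
  have hL1UP : S_L1UP := HOLE.l1up hL1 hDUAL hXC1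
  have hHOLE : S_HOLE := HOLE.hole hL1UP hXC1 hXC2
  have hHL2 : S_HL2 := HL23.hl2 hXC1
  have hHL3 : S_HL3 := HL23.hl3 hXC1
  have hHL4 : S_HL4 := HL4.hl4 hHL3 hXC1
  have hHL5 : S_HL5 := HL5.hl5 hXC1 hHL2 hHL3
  have hHL7 : S_HL7 := HL7.hl7 hXC1 hHL2 hHL3
  have hHLR : S_HLR := HLR.hlr HLR.rev hHL5 hHL7
  have hCOR6 : S_COR6 := NOUP.cor6 hHOLE hHL4 hHL5 hHLR hXC1
  have hMKESS : S_MKESS := NOUP.mkess hHOLE hHL2 hHL4 hXC1
  have hLEVB : S_LEVB := NOUP.levb hHOLE hHL7 hHLR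
  have hNOUP : S_NOUP := NOUP.noup hHOLE hHL2 hHL4 hHL5 hHLR hXC1
  have hLBL : S_LBL := NBR.lbl_iff
  have hNBR : S_NBR := NBR.nbr hL1UP hXC1 hXC2
  have hRULE : S_RULE := RULE.rule hNBR hLBL hXC1 hXC2
  have hNONE : S_NONE := NONE.none_case hNBR hLBL hCONN hNOUP hLEVB hXC1 hXC2
  have hMIDPT : S_MIDPT := MIDPT.midpt hXC1
  have hAUTC : S_AUTC := AUTC.autc
  have hSIDE1 : S_SIDE1 := SIDE1.side1 hMIDPT hNBR hLBL hL1UP hXC1 hXC2
  have hSIDE2 : S_SIDE2 := SIDE2.side2 hNBR hLBL hMKESS hLEVB hXC1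
  have hAUT1 : S_AUT1 := AUT1.aut1 hMIDPT hAUTC hNBR hLBL hL1UP hXC1 hXC2
  have hAUT2 : S_AUT2 := AUT2.aut2 hNONE hNBR hLBL hMKESS hLEVB hXC1
  have hCNT : S_CNT := CNT.cnt_even hRULE hTHE hSIDE1 hSIDE2 hAUT1 hAUT2
  have hFAC : S_FAC := FAC.fac
  have hSYM : S_SYM := SYM.sym
  have hPAR : S_PAR := PAR.par hCNT hFAC hSYM
  have hEFIN : S_EFIN := efin
  have hDEG : S_DEG := DEG.deg hPAR hFAC hEFIN
  have hSHF : S_SHF := SHF.shf hCONN hXC1 hXC2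
  have hSPHG : S_SPHG := SPHG.sphg hCUB hXC1 hXC2
  have hSPHE : S_SPHE := SPHE.sphe hL1UP hCUB hXC1 hXC2
  have hSPH : S_SPH := sph_exists hSHF hSPHG hSPHE
  have hEMB : S_EMB := EMB.emb hCONN
  have hFREEQ : S_FREEQ := FREEQ.freeq hEMB hCOR6 hCONN hXC1
  have hHT1 : S_HT1 := HT1.ht1 HFUN.hfun
  have hVAN : S_VAN := VAN.van hHT1 hFREEQ
  have hTW3 : S_TW3 := TW3.tw3 hXC2
  have hAMB : S_AMB := amb (TW1.tw1 hXC1 hXC2) TW2.tw2 hTW3 (TW4.tw4 hTW3 hCONN) TW5.tw5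
  exact conclusion hAMB hSPH hDEG hEFIN hVAN

end Pool.Agent.Helper71.SD
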