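import Mathlib
import Pool.Agent.Helper71.SuspDefs
import Pool.Agent.Helper71.SuspHtpy
import Pool.Agent.Helper71.SuspGroup
import Pool.Agent.Helper71.SuspStretch
import Pool.Agent.Helper71.SuspLift

/-!
Disproof of `MP_dcced1_gt`: combinatorial definitions (the 60-cube, blocks, closure codes, the graph
`X0`, the core band, ambient graphs `Amb`, essential cubes).
-/

namespace Pool.Agent.Helper71.SD

open Pool.Agent.Helper71.AHtpy SimpleGraph

/-- the 60 directions -/
abbrev E : Type := Fin 60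

/-- three blocks of 20 directions -/
def blk (i : E) : Fin 3 := ⟨i.val / 20, by omega⟩

/-- number of elements of `S` in the block `a` -/
def cnt (a : Fin 3) (S : Finset E) : ℕ := (S.filter fun i => blk i = a).card

/-- toggling one element -/
def tog {ι : Type} [DecidableEq ι] (a : ι) (S : Finset ι) : Finset ι := symmDiff S {a}

theorem mem_tog {ι : Type} [DecidableEq ι] {a i : ι} {S : Finset ι} :
    i ∈ tog a S ↔ (i ∈ S ∧ i ≠ a) ∨ (i = a ∧ i ∉ S) := by
  simp [tog, Finset.mem_symmDiff]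

theorem tog_tog {ι : Type} [DecidableEq ι] (a : ι) (S : Finset ι) : tog a (tog a S) = S := by
  simp [tog]

theorem tog_ne {ι : Type} [DecidableEq ι] (a : ι) (S : Finset ι) : tog a S ≠ S := by
  intro h
  have := Finset.ext_iff.mp h a
  simp [mem_tog] at this

/-- the graph of the cube: vertices are the subsets of `ι` -/
def cube (ι : Type) [DecidableEq ι] : SimpleGraph (Finset ι) where
  Adj S T := ∃ a, T = tog a S
  symm := ⟨by
    rintro S T ⟨a, rfl⟩
    exact ⟨a, (tog_tog a S).symm⟩⟩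
  loopless := ⟨by
    rintro S ⟨a, h⟩
    exact tog_ne a S h.symm⟩

/-- `0, 1, 2, 3` if the largest block count of `S` is `≤ 2`, `3`, `4`, `≥ 5` -/
def low (S : Finset E) : ℕ := min 3 (max (cnt 0 S) (max (cnt 1 S) (cnt 2 S)) - 2)

/-- the height of the universal cube -/
def hgt (S : Finset E) : ℕ := low S + (3 - low Sᶜ)

/-- non-polar sets -/
def NP (S : Finset E) : Prop := 0 < hgt S ∧ hgt S < 6

/-- codes of the vertices of `X0` -/
inductive C0 : Type
  | mid : Finset E → C0
  | lo : (Fin 3 → Option (Finset E)) → C0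
  | hi : (Fin 3 → Option (Finset E)) → C0

/-- closure of `S`: in every block either `S` itself (at most 2 elements) or everything (`none`) -/
def cl (S : Finset E) (a : Fin 3) : Option (Finset E) :=
  if 3 ≤ cnt a S then none else some (S.filter fun i => blk i = a)

/-- the code (horizontal coordinate) of a set -/
def xc (S : Finset E) : C0 :=
  if ∀ a, cnt a S ≤ 5 then .lo (cl S) else if ∀ a, cnt a Sᶜ ≤ 5 then .hi (cl Sᶜ) else .mid S

/-- the universal graph: image of the cube without the poles -/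
def X0 : SimpleGraph C0 where
  Adj y y' := y ≠ y' ∧ ∃ S T, (cube E).Adj S T ∧ NP S ∧ NP T ∧ xc S = y ∧ xc T = y'
  symm := ⟨by
    rintro y y' ⟨hne, S, T, h, hS, hT, rfl, rfl⟩
    exact ⟨hne.symm, T, S, h.symm, hT, hS, rfl, rfl⟩⟩
  loopless := ⟨fun y h => h.1 rfl⟩

/-- the core band -/
def Core (S : Finset E) : Prop := 28 ≤ S.card ∧ S.card ≤ 32

/-- A graph map `g : H → V` is free if it contains no copy of the core. -/
def Free {V H : Type} (b : C0 → V) (A : SimpleGraph H) (g : H → V) : Prop :=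
  ¬ ∃ q : Finset E → H, (∀ S, Core S → g (q S) = b (.mid S)) ∧
    ∀ S T, Core S → Core T → (cube E).Adj S T → Near A (q S) (q T)

/-- The ambient graph: all properties of the big graph which are used in the proof. -/
structure Amb {V : Type} (G : SimpleGraph V) where
  /-- the vertices of `X0` -/
  b : C0 → V
  b_inj : Function.Injective b
  b_adj : ∀ y y', X0.Adj y y' → G.Adj (b y) (b y')
  /-- `ft v = some S` if `v` is the foot of a cylinder over `mid S` -/
  ft : V → Option (Finset E)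
  ft_b : ∀ y, ft (b y) = none
  nbr : ∀ S, xc S = .mid S → ∀ v, G.Adj (b (.mid S)) v →
    (∃ T, (cube E).Adj S T ∧ v = b (xc T)) ∨ ft v = some S
  ft_nbr : ∀ v S y, ft v = some S → G.Adj v (b y) → y = .mid S
  no_lift : ¬ ∃ φ : Finset E → V, (∀ S, Core S → ft (φ S) = some S) ∧
    ∀ S T, Core S → Core T → (cube E).Adj S T → G.Adj (φ S) (φ T)
  /-- distance to `X0`, truncated -/
  eta : V → ℕ
  eta_b : ∀ y, eta (b y) = 0
  eta_lip : ∀ v w, G.Adj v w → eta v ≤ eta w + 1
  /-- the ranks near the pole `0` -/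
  F : V → Fin 3 → ℤ
  F_b : ∀ S, NP S → ∀ a, F (b (xc S)) a = min 3 (cnt a S)
  F_lip : ∀ v w, G.Adj v w → eta v < 7 → eta w < 7 → ∑ a, |F v a - F w a| ≤ 1
  F_top : ∀ v, eta v < 7 → ∃ a, F v a = 3
  /-- the ranks near the pole `n` -/
  F' : V → Fin 3 → ℤ
  F'_b : ∀ S, NP S → ∀ a, F' (b (xc S)) a = min 3 (cnt a Sᶜ)
  F'_lip : ∀ v w, G.Adj v w → eta v < 7 → eta w < 7 → ∑ a, |F' v a - F' w a| ≤ 1
  F'_top : ∀ v, eta v < 7 → ∃ a, F' v a = 3
  /-- free graph maps of finite graphs are homotopic to constant maps -/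
  att : ∀ (H : Type) [Finite H] (A : SimpleGraph H) (g : H → V), IsGraphMap A G g →
    Free b A g → ∃ (L : ℕ) (Φ : ℕ → H → V) (c : V), Φ 0 = g ∧ (∀ l, IsGraphMap A G (Φ l)) ∧
      (∀ l i, Near G (Φ l i) (Φ (l + 1) i)) ∧ (∀ l, L ≤ l → ∀ i, Φ l i = c) ∧
      (∀ l, 1 ≤ l → ∀ i y, Φ l i ≠ b y)

section based

variable {V : Type} {G : SimpleGraph V} (A : Amb G)

/-- the middle layer sits at height `j` with the labels of the universal cube -/
def Based (n j : ℕ) (σ : Finset E → Quotient (suspSetoid V n)) : Prop :=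
  ∀ S, S.card = 30 → σ S = pt n (A.b (.mid S)) j

/-- a subset of one block with at most 4 elements -/
def Small (z : Finset E) : Prop := z.card ≤ 4 ∧ ∃ a, ∀ i ∈ z, blk i = a

/-- essential cubes with the standard parametrization -/
def EssB (σ : Finset E → Quotient (suspSetoid V 6)) : Prop :=
  IsGraphMap (cube E) (Susp G 6) σ ∧ Based A 6 3 σ ∧ (∃ z, Small z ∧ lev (σ z) = 0) ∧
    ∃ z, Small z ∧ lev (σ zᶜ) = 6

/-- affine injections of cubes -/
def aff {κ ι : Type} [DecidableEq ι] (π : κ ↪ ι) (w : Finset ι) (S : Finset κ) : Finset ι :=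
  symmDiff w (S.map π)

/-- essential cubes -/
def EssA (σ : Finset E → Quotient (suspSetoid V 6)) : Prop :=
  ∃ (π : Equiv.Perm E) (w : Finset E), EssB A fun S => σ (aff π.toEmbedding w S)

/-- the facet `{W : (i ∈ W) = e}` of a cube is essential -/
def EssF {ι : Type} [DecidableEq ι] (τ : Finset ι → Quotient (suspSetoid V 6)) (i : ι)
    (e : Bool) : Prop :=
  ∃ (π : E ↪ ι) (w : Finset ι), (∀ j, π j ≠ i) ∧ (decide (i ∈ w) = e) ∧
    EssB A fun S => τ (aff π w S)

end based

/-- the side facets of the homotopy between two cubes -/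
def side {Q : Type} (σ₀ σ₁ : Finset E → Q) (i : E) (e : Bool) (S : Finset E) : Q :=
  if decide (i ∈ S) = e then σ₀ S else σ₁ (tog i S)

/-- the rank data near a pole -/
structure Rk {V : Type} (G : SimpleGraph V) (eta : V → ℕ) (F : V → Fin 3 → ℤ) : Prop where
  eta_lip : ∀ v w, G.Adj v w → eta v ≤ eta w + 1
  F_lip : ∀ v w, G.Adj v w → eta v < 7 → eta w < 7 → ∑ a, |F v a - F w a| ≤ 1
  F_top : ∀ v, eta v < 7 → ∃ a, F v a = 3

/-- a graph map of the cube with the boundary values of the universal cube around a hole -/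
structure Hole {V : Type} (G : SimpleGraph V) (eta : V → ℕ) (F : V → Fin 3 → ℤ) (n j : ℕ)
    (θ : Finset E → Quotient (suspSetoid V n)) : Prop where
  rk : Rk G eta F
  gm : IsGraphMap (cube E) (Susp G n) θ
  forced : ∀ S, (∀ a, cnt a S ≤ 5) → (∃ a, cnt a S = 5) →
    ∃ v, θ S = pt n v j ∧ eta v = 0 ∧ ∀ a, F v a = min 3 (cnt a S)
  hn : 6 ≤ n
  hj : 2 ≤ j
  hj' : j + 2 ≤ n

end Pool.Agent.Helper71.SD
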