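import Pool.Agent.Helper71.SD.Goals
import Pool.Agent.Helper71.SD.WE
import Pool.Agent.Helper71.SuspMain

/-!
Conclusion of the disproof of `MP_dcced1_gt` from the packets.
-/

namespace Pool.Agent.Helper71.SD

open Pool.Agent.Helper71.AHtpy SimpleGraph

/-- The parity of the number of essential cubes is a homotopy invariant. -/
theorem parity_homotopic (hDEG : S_DEG) {V : Type} {G : SimpleGraph V} (A : Amb G)
    {x₀ : Quotient (suspSetoid V 6)} {f g : AMap 60 (Susp G 6) x₀} (h : Homotopic f g) :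
    (Even (essSet A f.toFun).ncard ↔ Even (essSet A g.toFun).ncard) := by
  rw [homotopic_iff] at h
  induction h with
  | refl => exact Iff.rfl
  | tail _ hst ih => exact ih.trans (hDEG V G A x₀ _ _ hst)

theorem not_triv (hSPH : S_SPH) (hDEG : S_DEG) (hEFIN : S_EFIN) {V : Type} {G : SimpleGraph V}
    (A : Amb G) : ¬ Triv 60 (Susp G 6) := by
  intro h
  obtain ⟨x₀, f, hf⟩ := hSPH V G A
  have h1 := parity_homotopic hDEG A (h x₀ f)
  have h2 : essSet A (cst 60 (Susp G 6) x₀).toFun = ∅ :=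
    ((hEFIN V G A x₀).2 (cst 60 (Susp G 6) x₀)).2 (fun _ => rfl)
  rw [hf, h2, Set.ncard_singleton, Set.ncard_empty] at h1
  simp at h1

theorem triv67 (hVAN : S_VAN) {V : Type} {G : SimpleGraph V} (A : Amb G) :
    Triv 60 (Susp G 67) := by
  intro x f
  let v := A.b (.mid ∅)
  exact triv_at_change (susp_reachable (pt 67 v 0) x) (fun f => hVAN V G A v f _) f

/-- **Disproof of `MP_dcced1_gt`, Q1.** -/
theorem conclusion (hAMB : S_AMB) (hSPH : S_SPH) (hDEG : S_DEG) (hEFIN : S_EFIN)
    (hVAN : S_VAN) : ∃ (V : Type) (X : SimpleGraph V) (n : ℕ),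
      5 ≤ n ∧ ¬ WHE (Susp X (n + 1)) (Susp X n) := by
  obtain ⟨A⟩ := hAMB
  have h6 := not_triv hSPH hDEG hEFIN A
  have h67 := triv67 hVAN A
  by_contra hcon
  have hall : ∀ n, 5 ≤ n → WHE (Susp BG (n + 1)) (Susp BG n) := by
    intro n hn
    by_contra h
    exact hcon ⟨_, BG, n, hn, h⟩
  have key : ∀ d, Triv 60 (Susp BG (6 + d)) → Triv 60 (Susp BG 6) := by
    intro d
    induction d with
    | zero => exact id
    | succ d ih =>
      intro h
      exact ih ((triv_iff_of_whe (hall (6 + d) (by omega)) (by omega)).mp h)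
  exact h6 (key 61 h67)

end Pool.Agent.Helper71.SD
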