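import Pool.Agent.Helper71.SD.Defs

/-!
The big graph: `X0` with cones over all free maps of finite graphs, iterated.
-/

namespace Pool.Agent.Helper71.SD

open Pool.Agent.Helper71.AHtpy SimpleGraph

/-- Raw vertices: vertices of `X0`, vertices `(i, l)` of the cylinder over `g : (Fin m, A) → T`, and
the apex over this cylinder. -/
inductive T : Type
  | base : C0 → T
  | cyl : (m : ℕ) → SimpleGraph (Fin m) → (Fin m → T) → Fin m → ℕ → T
  | apex : (m : ℕ) → SimpleGraph (Fin m) → (Fin m → T) → T

/-- oriented edges -/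
inductive TE : T → T → Prop
  | base (y y' : C0) : X0.Adj y y' → TE (.base y) (.base y')
  | hor (m : ℕ) (A : SimpleGraph (Fin m)) (g : Fin m → T) (i j : Fin m) (l : ℕ) : A.Adj i j →
      TE (.cyl m A g i l) (.cyl m A g j l)
  | ver (m : ℕ) (A : SimpleGraph (Fin m)) (g : Fin m → T) (i : Fin m) (l : ℕ) :
      TE (.cyl m A g i l) (.cyl m A g i (l + 1))
  | top (m : ℕ) (A : SimpleGraph (Fin m)) (g : Fin m → T) (i : Fin m) :
      TE (.cyl m A g i 7) (.apex m A g)
  | foot (m : ℕ) (A : SimpleGraph (Fin m)) (g : Fin m → T) (i : Fin m) :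
      TE (.cyl m A g i 0) (g i)

/-- equal or joined by an edge -/
def TN (s t : T) : Prop := s = t ∨ TE s t ∨ TE t s

/-- `g` is a graph map -/
def TGM {m : ℕ} (A : SimpleGraph (Fin m)) (g : Fin m → T) : Prop := ∀ i j, A.Adj i j → TN (g i) (g j)

/-- the valid vertices: the attaching maps are free graph maps with valid values, the levels of a
cylinder are `0, …, 7` -/
def Valid : T → Prop
  | .base _ => True
  | .cyl _ A g _ l => (∀ i, Valid (g i)) ∧ TGM A g ∧ Free T.base A g ∧ l ≤ 7
  | .apex _ A g => (∀ i, Valid (g i)) ∧ TGM A g ∧ Free T.base A g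

/-- the vertices of the big graph -/
abbrev BV : Type := {t : T // Valid t}

/-- the big graph -/
def BG : SimpleGraph BV where
  Adj s t := s ≠ t ∧ (TE s.1 t.1 ∨ TE t.1 s.1)
  symm := ⟨fun _ _ h => ⟨h.1.symm, h.2.symm⟩⟩
  loopless := ⟨fun _ h => h.1 rfl⟩

/-- truncated distance to `X0` -/
noncomputable def etaT : T → ℕ
  | .base _ => 0
  | .cyl _ _ g i l => min 8 (etaT (g i) + l + 1)
  | .apex _ _ _ => 8

/-- extension of a function on `X0` along the cylinders -/
noncomputable def extT (F₀ : C0 → Fin 3 → ℤ) : T → Fin 3 → ℤ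
  | .base y => F₀ y
  | .cyl _ _ g i _ => extT F₀ (g i)
  | .apex _ _ _ => fun _ => 3

open Classical in
/-- ranks near the pole `0` on `X0` -/
noncomputable def rk0 (y : C0) (a : Fin 3) : ℤ :=
  if h : ∃ S, NP S ∧ xc S = y then min 3 (cnt a h.choose) else 3

open Classical in
/-- ranks near the pole `n` on `X0` -/
noncomputable def rk1 (y : C0) (a : Fin 3) : ℤ :=
  if h : ∃ S, NP S ∧ xc S = y then min 3 (cnt a h.chooseᶜ) else 3

/-- the foot label -/
def footT : T → Option (Finset E)
  | .cyl _ _ g i 0 => match g i with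
    | .base (.mid S) => some S
    | _ => none
  | _ => none

end Pool.Agent.Helper71.SD
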