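import Pool.Agent.Helper71.SD.Defs
import Pool.Agent.Helper71.SD.Tower

/-!
Statements of the packets of the disproof of `MP_dcced1_gt`.
-/

namespace Pool.Agent.Helper71.SD

open Pool.Agent.Helper71.AHtpy SimpleGraph

/-! ## Sets and codes -/

/-- PACKET XC1. -/
def S_XC1 : Prop :=
  (∀ a S, cnt a S ≤ 20 ∧ cnt a Sᶜ = 20 - cnt a S) ∧
  (∀ S : Finset E, S.card = cnt 0 S + cnt 1 S + cnt 2 S) ∧
  (∀ a i (S : Finset E), (blk i ≠ a → cnt a (tog i S) = cnt a S) ∧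
    (blk i = a → i ∈ S → cnt a (tog i S) + 1 = cnt a S) ∧
    (blk i = a → i ∉ S → cnt a (tog i S) = cnt a S + 1)) ∧
  (∀ a S T, S ⊆ T → cnt a S ≤ cnt a T) ∧
  (∀ (a : Fin 3) (S : Finset E) (m : ℕ), cnt a S + m ≤ 20 →
    ∃ U : Finset E, U.card = m ∧ Disjoint U S ∧ ∀ i ∈ U, blk i = a) ∧
  (∀ (i : E) (S : Finset E), (tog i S)ᶜ = tog i Sᶜ) ∧
  (∀ (i j : E) (S : Finset E), tog i (tog j S) = tog j (tog i S)) ∧
  (∀ (i : E) (S : Finset E), (i ∈ S → (tog i S).card + 1 = S.card) ∧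
    (i ∉ S → (tog i S).card = S.card + 1))

/-- PACKET XC2. -/
def S_XC2 : Prop :=
  (∀ S, NP S ↔ (∃ a, 3 ≤ cnt a S) ∧ ∃ a, 3 ≤ cnt a Sᶜ) ∧
  (∀ S T, xc S = .mid T ↔ S = T ∧ (∃ a, 6 ≤ cnt a S) ∧ ∃ a, 6 ≤ cnt a Sᶜ) ∧
  (∀ S T, (cube E).Adj S T → NP S → NP T → hgt S ≠ hgt T → xc S = xc T) ∧
  (∀ S T, (cube E).Adj S T → hgt S ≤ hgt T + 1) ∧
  (∀ S T, NP S → NP T → xc S = xc T → ∀ a, min 3 (cnt a S) = min 3 (cnt a T) ∧
    min 3 (cnt a Sᶜ) = min 3 (cnt a Tᶜ)) ∧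
  (∀ S, hgt S ≤ 6) ∧ (∀ S, (∃ a, 5 ≤ cnt a S) → (∃ a, 5 ≤ cnt a Sᶜ) → hgt S = 3)

/-- PACKET CUB (uses XC1, XC2). The universal cube is a graph map and essential. -/
def S_CUB : Prop := ∀ (V : Type) (G : SimpleGraph V) (A : Amb G),
  EssB A fun S => pt 6 (A.b (xc S)) (hgt S)

/-! ## The labelling theorem -/

/-- the band of half-width `w` around the middle layer -/
def Bd (w : ℕ) (S : Finset E) : Prop := 30 ≤ S.card + w ∧ S.card ≤ 30 + w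

/-- PACKET CONN. The bands are connected. -/
def S_CONN : Prop := ∀ (w : ℕ) (P : Finset E → Prop), 1 ≤ w → w ≤ 30 →
  (∀ S a, Bd w S → Bd w (tog a S) → P S → P (tog a S)) → ∀ S T, Bd w S → Bd w T → P S → P T

/-- the edge rule for labellings -/
def Rule (δ : Finset E → Option E) : Prop := ∀ S a, Bd 6 S → Bd 6 (tog a S) →
  δ S = δ (tog a S) ∨ δ S = some a ∨ δ (tog a S) = some a

/-- PACKET ECONST (uses CONN). -/
def S_ECONST : Prop := ∀ δ, Rule δ →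
  (∀ S a, Bd 2 S → some a ≠ δ S → δ (tog a S) ≠ some a) → ∀ S T, Bd 2 S → Bd 2 T → δ S = δ T

/-- PACKET ETOP. -/
def S_ETOP : Prop := ∀ δ, Rule δ → ∀ v a₀, Bd 2 v → some a₀ ≠ δ v → δ (tog a₀ v) = some a₀ →
  ∃ a, some a ≠ δ v ∧ δ (tog a v) = some a ∧
    ∀ c, c ≠ a → some c ≠ δ v → δ (tog c (tog a v)) = some a

/-- PACKET ESQ. -/
def S_ESQ : Prop := ∀ δ, Rule δ → ∀ v a b, Bd 2 v → a ≠ b → δ v = some b →
  δ (tog a v) = some a → (∀ c, c ≠ a → c ≠ b → δ (tog c (tog a v)) = some a) →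
  δ (tog b (tog a v)) ≠ some a →
  δ (tog b (tog a v)) = some b ∧
  (∀ c, c ≠ a → c ≠ b → δ (tog c (tog b (tog a v))) = some b) ∧
  (δ (tog b v) = some b ∨ (δ (tog b v) = some a ∧
    ∀ c, c ≠ a → c ≠ b → δ (tog c v) = some b ∧ δ (tog c (tog b v)) = some a))

/-- PACKET EFLAT. -/
def S_EFLAT : Prop := ∀ δ, Rule δ → ∀ w a, Bd 4 w → δ w = some a →
  (∀ c, c ≠ a → δ (tog c w) = some a) → ∀ S, Bd 6 S → (a ∈ S ↔ a ∈ w) → δ S = some a

/-- PACKET EROT. -/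
def S_EROT : Prop := ∀ δ, Rule δ → ∀ v a b, Bd 2 v → a ≠ b → δ v = some b →
  δ (tog a v) = some a → δ (tog b v) = some a → δ (tog b (tog a v)) = some b →
  (∀ c, c ≠ a → c ≠ b → δ (tog c v) = some b ∧ δ (tog c (tog a v)) = some a ∧
    δ (tog c (tog b v)) = some a ∧ δ (tog c (tog b (tog a v))) = some b) →
  ∀ S, Bd 6 S → (((a ∈ S ↔ a ∈ v) ↔ (b ∈ S ↔ b ∈ v)) → δ S = some b) ∧
    (¬ ((a ∈ S ↔ a ∈ v) ↔ (b ∈ S ↔ b ∈ v)) → δ S = some a)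

/-- PACKET THE (uses ECONST, ETOP, ESQ, EFLAT, EROT). -/
def S_THE : Prop := ∀ δ, Rule δ →
  (∀ S, Bd 2 S → δ S = none) ∨ (∃ i, ∀ S, Bd 2 S → δ S = some i) ∨
  (∃ i j, i ≠ j ∧ ∀ S, Bd 2 S → ((i ∈ S ↔ j ∈ S) → δ S = some i) ∧
    (¬ (i ∈ S ↔ j ∈ S) → δ S = some j)) ∨
  (∃ i e, ∀ S, Bd 2 S → decide (i ∈ S) = e → δ S = some i)

/-! ## Propagation and duality -/

/-- PACKET L1 (uses XC1, XC2). -/
def S_L1 : Prop := ∀ (V : Type) (G : SimpleGraph V) (A : Amb G) (n j : ℕ)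
  (σ : Finset E → Quotient (suspSetoid V n)), IsGraphMap (cube E) (Susp G n) σ → 2 ≤ j →
  j + 2 ≤ n → Based A n j σ → ∀ S, S.card ≤ 30 → (∃ a, 5 ≤ cnt a S) →
  σ S = pt n (A.b (xc S)) j

/-- PACKET DUAL (uses XC1). -/
def S_DUAL : Prop := ∀ (V : Type) (G : SimpleGraph V) (A : Amb G), ∃ B : Amb G,
  (∀ S, B.b (.mid S) = A.b (.mid Sᶜ)) ∧ (∀ S, B.b (xc S) = A.b (xc Sᶜ)) ∧
  B.eta = A.eta ∧ B.F = A.F' ∧ B.F' = A.F

/-- PACKET L1UP (uses L1, DUAL, XC1). -/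
def S_L1UP : Prop := ∀ (V : Type) (G : SimpleGraph V) (A : Amb G) (n j : ℕ)
  (σ : Finset E → Quotient (suspSetoid V n)), IsGraphMap (cube E) (Susp G n) σ → 2 ≤ j →
  j + 2 ≤ n → Based A n j σ → ∀ S, (∃ a, 5 ≤ cnt a S) → (∃ a, 5 ≤ cnt a Sᶜ) →
  σ S = pt n (A.b (xc S)) j

/-! ## The holes -/

/-- PACKET HL2 (uses XC1). -/
def S_HL2 : Prop := ∀ (V : Type) (G : SimpleGraph V) (eta : V → ℕ) (F : V → Fin 3 → ℤ) (n j : ℕ)
  (θ : Finset E → Quotient (suspSetoid V n)), Hole G eta F n j θ →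
  ∀ S, (∀ a, cnt a S ≤ 5) → ∀ a, j ≤ lev (θ S) + (5 - cnt a S) ∧
    lev (θ S) ≤ j + (5 - cnt a S)

/-- PACKET HL3 (uses XC1). -/
def S_HL3 : Prop := ∀ (V : Type) (G : SimpleGraph V) (eta : V → ℕ) (F : V → Fin 3 → ℤ) (n j : ℕ)
  (θ : Finset E → Quotient (suspSetoid V n)), Hole G eta F n j θ →
  ∀ S, (∀ a, cnt a S ≤ 5) → ∀ a, (∀ S', S ⊆ S' → (∀ i ∈ S', i ∉ S → blk i = a) →
    cnt a S' ≤ 5 → 0 < lev (θ S') ∧ lev (θ S') < n) →
  eta (lab (θ S)) ≤ 5 - cnt a S ∧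
  |(lev (θ S) : ℤ) - j| + ∑ b, |F (lab (θ S)) b - (if b = a then 3 else min 3 (cnt b S : ℤ))| ≤
    5 - (cnt a S : ℤ)

/-- PACKET HL4 (uses HL3). -/
def S_HL4 : Prop := ∀ (V : Type) (G : SimpleGraph V) (eta : V → ℕ) (F : V → Fin 3 → ℤ) (n j : ℕ)
  (θ : Finset E → Quotient (suspSetoid V n)), Hole G eta F n j θ →
  ∃ z, Small z ∧ (lev (θ z) = 0 ∨ lev (θ z) = n)

/-- PACKET HL5 (uses XC1, HL2, HL3). -/
def S_HL5 : Prop := ∀ (V : Type) (G : SimpleGraph V) (eta : V → ℕ) (F : V → Fin 3 → ℤ) (n j : ℕ)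
  (θ : Finset E → Quotient (suspSetoid V n)), Hole G eta F n j θ → 4 ≤ j →
  ∀ S, (∀ a, cnt a S ≤ 4) → lev (θ S) ≠ 0

/-- PACKET HL7 (uses XC1, HL2, HL3). -/
def S_HL7 : Prop := ∀ (V : Type) (G : SimpleGraph V) (eta : V → ℕ) (F : V → Fin 3 → ℤ)
  (θ : Finset E → Quotient (suspSetoid V 6)), Hole G eta F 6 3 θ →
  ∀ z, Small z → lev (θ z) = 0 → ∀ S : Finset E, S.card ≤ 3 → lev (θ S) ≤ 4

/-- PACKET REV. -/
def S_REV : Prop := ∀ (V : Type) (G : SimpleGraph V) (n : ℕ),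
  ∃ rev : Quotient (suspSetoid V n) → Quotient (suspSetoid V n),
    (∀ x l, l ≤ n → rev (pt n x l) = pt n x (n - l)) ∧
    IsGraphMap (Susp G n) (Susp G n) rev ∧ ∀ q, lev (rev q) = n - lev q

/-- PACKET HLR (uses REV, HL5, HL7): the versions for the other pole. -/
def S_HLR : Prop :=
  (∀ (V : Type) (G : SimpleGraph V) (eta : V → ℕ) (F : V → Fin 3 → ℤ) (n j : ℕ)
    (θ : Finset E → Quotient (suspSetoid V n)), Hole G eta F n j θ → j + 4 ≤ n →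
    ∀ S, (∀ a, cnt a S ≤ 4) → lev (θ S) ≠ n) ∧
  (∀ (V : Type) (G : SimpleGraph V) (eta : V → ℕ) (F : V → Fin 3 → ℤ)
    (θ : Finset E → Quotient (suspSetoid V 6)), Hole G eta F 6 3 θ →
    ∀ z, Small z → lev (θ z) = 6 → ∀ S : Finset E, S.card ≤ 3 → 2 ≤ lev (θ S))

/-- PACKET HOLE (uses L1UP, XC1, XC2). A based cube has a hole at both ends. -/
def S_HOLE : Prop := ∀ (V : Type) (G : SimpleGraph V) (A : Amb G) (n j : ℕ)
  (σ : Finset E → Quotient (suspSetoid V n)), IsGraphMap (cube E) (Susp G n) σ → 6 ≤ n → 2 ≤ j →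
  j + 2 ≤ n → Based A n j σ → Hole G A.eta A.F n j σ ∧
    Hole G A.eta A.F' n j (fun S => σ Sᶜ)

/-- PACKET COR6 (uses HOLE, HL4, HL5, HLR, XC1). -/
def S_COR6 : Prop := ∀ (V : Type) (G : SimpleGraph V) (A : Amb G) (n j : ℕ)
  (σ : Finset E → Quotient (suspSetoid V n)), IsGraphMap (cube E) (Susp G n) σ →
  Based A n j σ → 4 ≤ j → j + 4 ≤ n → False

/-- PACKET MKESS (uses HOLE, HL2, HL4, XC1). -/
def S_MKESS : Prop := ∀ (V : Type) (G : SimpleGraph V) (A : Amb G)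
  (σ : Finset E → Quotient (suspSetoid V 6)), IsGraphMap (cube E) (Susp G 6) σ →
  Based A 6 3 σ → (∀ z : Finset E, z.card ≤ 2 → lev (σ z) ≠ 6) →
  (∀ z : Finset E, z.card ≤ 2 → lev (σ zᶜ) ≠ 0) → EssB A σ

/-- PACKET LEVB (uses HOLE, HL7, HLR). -/
def S_LEVB : Prop := ∀ (V : Type) (G : SimpleGraph V) (A : Amb G)
  (σ : Finset E → Quotient (suspSetoid V 6)), EssB A σ →
  (∀ S : Finset E, S.card ≤ 3 → lev (σ S) ≤ 4) ∧ ∀ S : Finset E, S.card ≤ 3 → 2 ≤ lev (σ Sᶜ)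

/-- PACKET NOUP (uses HOLE, HL2, HL4, HL5, HLR, XC1). -/
def S_NOUP : Prop := ∀ (V : Type) (G : SimpleGraph V) (A : Amb G)
  (σ : Finset E → Quotient (suspSetoid V 6)), IsGraphMap (cube E) (Susp G 6) σ →
  (Based A 6 4 σ → ∃ z : Finset E, z.card ≤ 3 ∧ lev (σ z) = 6) ∧
  (Based A 6 2 σ → ∃ z : Finset E, z.card ≤ 3 ∧ lev (σ zᶜ) = 0)

/-! ## The parity lemma -/

/-- two adjacent cubes, the first one essential -/
structure Pair {V : Type} {G : SimpleGraph V} (A : Amb G)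
    (σ₀ σ₁ : Finset E → Quotient (suspSetoid V 6)) : Prop where
  g1 : IsGraphMap (cube E) (Susp G 6) σ₁
  near : ∀ S, Near (Susp G 6) (σ₀ S) (σ₁ S)
  ess : EssB A σ₀

open Classical in
/-- the label of `σ₁` at `S` -/
noncomputable def lbl {V : Type} {G : SimpleGraph V} (A : Amb G)
    (σ₁ : Finset E → Quotient (suspSetoid V 6)) (S : Finset E) : Option E :=
  if h : ∃ a, σ₁ S = pt 6 (A.b (.mid (tog a S))) 3 then some h.choose else none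

/-- PACKET LBL. -/
def S_LBL : Prop := ∀ (V : Type) (G : SimpleGraph V) (A : Amb G)
  (σ₁ : Finset E → Quotient (suspSetoid V 6)) (S : Finset E) (a : E),
  lbl A σ₁ S = some a ↔ σ₁ S = pt 6 (A.b (.mid (tog a S))) 3

/-- PACKET NBR (uses L1UP, XC1, XC2). Values of `σ₁` on the band of width 6. -/
def S_NBR : Prop := ∀ (V : Type) (G : SimpleGraph V) (A : Amb G)
  (σ₀ σ₁ : Finset E → Quotient (suspSetoid V 6)), Pair A σ₀ σ₁ → ∀ S, Bd 6 S →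
  σ₀ S = pt 6 (A.b (.mid S)) 3 ∧
  (σ₁ S = pt 6 (A.b (.mid S)) 3 ∨ σ₁ S = pt 6 (A.b (.mid S)) 2 ∨
    σ₁ S = pt 6 (A.b (.mid S)) 4 ∨ (∃ a, σ₁ S = pt 6 (A.b (.mid (tog a S))) 3) ∨
    ∃ v, A.ft v = some S ∧ σ₁ S = pt 6 v 3)

/-- PACKET RULE (uses NBR, LBL). -/
def S_RULE : Prop := ∀ (V : Type) (G : SimpleGraph V) (A : Amb G)
  (σ₀ σ₁ : Finset E → Quotient (suspSetoid V 6)), Pair A σ₀ σ₁ → Rule (lbl A σ₁)

/-- PACKET NONE (uses NBR, LBL, CONN, NOUP, LEVB). -/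
def S_NONE : Prop := ∀ (V : Type) (G : SimpleGraph V) (A : Amb G)
  (σ₀ σ₁ : Finset E → Quotient (suspSetoid V 6)), Pair A σ₀ σ₁ →
  (∀ S, Bd 2 S → lbl A σ₁ S = none) → ∀ S, Bd 2 S → σ₁ S = pt 6 (A.b (.mid S)) 3

/-- PACKET MIDPT (uses XC1). -/
def S_MIDPT : Prop := ∀ (π : Equiv.Perm E) (w : Finset E) (i : E) (e : Bool), ∃ S : Finset E,
  (aff π.toEmbedding w S).card = 30 ∧ decide (i ∈ aff π.toEmbedding w S) = e ∧
  ∃ a, 8 ≤ cnt a S ∧ cnt a S ≤ 12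

/-- PACKET SIDE1 (uses MIDPT, NBR, LBL, L1UP, XC1, XC2). -/
def S_SIDE1 : Prop := ∀ (V : Type) (G : SimpleGraph V) (A : Amb G)
  (σ₀ σ₁ : Finset E → Quotient (suspSetoid V 6)), Pair A σ₀ σ₁ → ∀ i e,
  EssA A (side σ₀ σ₁ i e) → ∀ S, Bd 2 S → decide (i ∈ S) = e → lbl A σ₁ S = some i

/-- PACKET SIDE2 (uses NBR, LBL, MKESS, LEVB). -/
def S_SIDE2 : Prop := ∀ (V : Type) (G : SimpleGraph V) (A : Amb G)
  (σ₀ σ₁ : Finset E → Quotient (suspSetoid V 6)), Pair A σ₀ σ₁ → ∀ i e,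
  (∀ S, Bd 2 S → decide (i ∈ S) = e → lbl A σ₁ S = some i) → EssA A (side σ₀ σ₁ i e)

/-- PACKET AUTC. Automorphisms of the cube close to the identity near one vertex. -/
def S_AUTC : Prop := ∀ (π : Equiv.Perm E) (w S₀ : Finset E),
  (∀ T : Finset E, T.card ≤ 1 → (symmDiff (aff π.toEmbedding w (symmDiff S₀ T))
    (symmDiff S₀ T)).card ≤ 1) →
  (∀ S, aff π.toEmbedding w S = S) ∨ (∃ i, ∀ S, aff π.toEmbedding w S = tog i S) ∨
  (∃ i j, i ≠ j ∧ ∀ S, ((i ∈ S ↔ j ∈ S) → aff π.toEmbedding w S = tog i S) ∧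
    (¬ (i ∈ S ↔ j ∈ S) → aff π.toEmbedding w S = tog j S))

/-- PACKET AUT1 (uses MIDPT, AUTC, NBR, LBL, L1UP, XC1, XC2). -/
def S_AUT1 : Prop := ∀ (V : Type) (G : SimpleGraph V) (A : Amb G)
  (σ₀ σ₁ : Finset E → Quotient (suspSetoid V 6)), Pair A σ₀ σ₁ → EssA A σ₁ →
  (∀ S, Bd 2 S → lbl A σ₁ S = none) ∨ (∃ i, ∀ S, Bd 2 S → lbl A σ₁ S = some i) ∨
  (∃ i j, i ≠ j ∧ ∀ S, Bd 2 S → ((i ∈ S ↔ j ∈ S) → lbl A σ₁ S = some i) ∧
    (¬ (i ∈ S ↔ j ∈ S) → lbl A σ₁ S = some j))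

/-- PACKET AUT2 (uses NONE, NBR, LBL, MKESS, LEVB, XC1). -/
def S_AUT2 : Prop := ∀ (V : Type) (G : SimpleGraph V) (A : Amb G)
  (σ₀ σ₁ : Finset E → Quotient (suspSetoid V 6)), Pair A σ₀ σ₁ →
  ((∀ S, Bd 2 S → lbl A σ₁ S = none) ∨ (∃ i, ∀ S, Bd 2 S → lbl A σ₁ S = some i) ∨
  (∃ i j, i ≠ j ∧ ∀ S, Bd 2 S → ((i ∈ S ↔ j ∈ S) → lbl A σ₁ S = some i) ∧
    (¬ (i ∈ S ↔ j ∈ S) → lbl A σ₁ S = some j))) → EssA A σ₁

open Classical in
/-- PACKET CNT (uses RULE, THE, SIDE1, SIDE2, AUT1, AUT2, XC1). -/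
def S_CNT : Prop := ∀ (V : Type) (G : SimpleGraph V) (A : Amb G)
  (σ₀ σ₁ : Finset E → Quotient (suspSetoid V 6)), Pair A σ₀ σ₁ →
  Even (1 + (if EssA A σ₁ then 1 else 0) +
    (Finset.univ.filter fun p : E × Bool => EssA A (side σ₀ σ₁ p.1 p.2)).card)

/-- the two facets of a cube with directions `Option E` in the direction `none` -/
def bot {Q : Type} (τ : Finset (Option E) → Q) (S : Finset E) : Q :=
  τ (S.map Function.Embedding.some)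

/-- see `bot` -/
def top {Q : Type} (τ : Finset (Option E) → Q) (S : Finset E) : Q :=
  τ (insert none (S.map Function.Embedding.some))

/-- PACKET FAC. The facets of a cube with directions `Option E`. -/
def S_FAC : Prop := ∀ (V : Type) (G : SimpleGraph V) (A : Amb G)
  (τ : Finset (Option E) → Quotient (suspSetoid V 6)),
  (EssF A τ none false ↔ EssA A (bot τ)) ∧ (EssF A τ none true ↔ EssA A (top τ)) ∧
  ∀ i e, EssF A τ (some i) e ↔ EssA A (side (bot τ) (top τ) i e)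

/-- PACKET SYM. Automorphisms permute the essential facets. -/
def S_SYM : Prop := ∀ (V : Type) (G : SimpleGraph V) (A : Amb G)
  (τ : Finset (Option E) → Quotient (suspSetoid V 6)) (ρ : Equiv.Perm (Option E))
  (w : Finset (Option E)) (i : Option E) (e : Bool),
  EssF A (fun W => τ (aff ρ.toEmbedding w W)) i e ↔
    EssF A τ (ρ i) (xor e (decide (ρ i ∈ w)))

open Classical in
/-- PACKET PAR (uses CNT, FAC, SYM). The number of essential facets is even. -/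
def S_PAR : Prop := ∀ (V : Type) (G : SimpleGraph V) (A : Amb G)
  (τ : Finset (Option E) → Quotient (suspSetoid V 6)),
  IsGraphMap (cube (Option E)) (Susp G 6) τ →
  Even (Finset.univ.filter fun p : Option E × Bool => EssF A τ p.1 p.2).card

/-- indicator vector -/
def ind (S : Finset E) (i : E) : ℤ := if i ∈ S then 1 else 0

/-- the set of essential unit cubes -/
def essSet {V : Type} {G : SimpleGraph V} (A : Amb G)
    (f : (Fin 60 → ℤ) → Quotient (suspSetoid V 6)) : Set (Fin 60 → ℤ) :=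
  {z | EssA A fun S => f (z + ind S)}

/-- PACKET EFIN. A constant unit cube is not essential, the set of essential unit cubes of a finitely
supported map is finite. -/
def S_EFIN : Prop := ∀ (V : Type) (G : SimpleGraph V) (A : Amb G) (x₀ : Quotient (suspSetoid V 6)),
  ¬ EssA A (fun _ => x₀) ∧
  ∀ f : AMap 60 (Susp G 6) x₀, (essSet A f.toFun).Finite ∧
    ((∀ z, f.toFun z = x₀) → essSet A f.toFun = ∅)

/-- PACKET DEG (uses PAR, FAC, EFIN). Homotopy invariance of the parity. -/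
def S_DEG : Prop := ∀ (V : Type) (G : SimpleGraph V) (A : Amb G) (x₀ : Quotient (suspSetoid V 6))
  (f g : AMap 60 (Susp G 6) x₀), Step f g →
  (Even (essSet A f.toFun).ncard ↔ Even (essSet A g.toFun).ncard)

/-! ## The sphere -/

/-- the vertex of the cube below `z` -/
def clp (z : Fin 60 → ℤ) : Finset E := Finset.univ.filter fun i => 1 ≤ z i

/-- the outside pattern of `z` -/
def pat (z : Fin 60 → ℤ) (i : E) : Fin 3 := if z i ≤ -1 then 0 else if z i ≤ 1 then 1 else 2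

/-- sup-distance to the unit cube `{0,1}^60` -/
def dd (z : Fin 60 → ℤ) : ℕ := Finset.univ.sup fun i => (max (-z i) (z i - 1)).toNat

/-- the graph of codes and patterns of the points outside the unit cube -/
def shell : SimpleGraph (C0 × (E → Fin 3)) where
  Adj p p' := p ≠ p' ∧ ∃ z z' : Fin 60 → ℤ, (grid (Fin 60)).Adj z z' ∧ 1 ≤ dd z ∧ 1 ≤ dd z' ∧
    NP (clp z) ∧ NP (clp z') ∧ (xc (clp z), pat z) = p ∧ (xc (clp z'), pat z') = p'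
  symm := ⟨by
    rintro p p' ⟨hne, z, z', h, h1, h1', hn, hn', rfl, rfl⟩
    exact ⟨hne.symm, z', z, h.symm, h1', h1, hn', hn, rfl, rfl⟩⟩
  loopless := ⟨fun p h => h.1 rfl⟩

/-- PACKET SHF (uses XC1, XC2). The projection of the shell is free. -/
def S_SHF : Prop := Finite (C0 × (E → Fin 3)) ∧ ∀ (V : Type) (G : SimpleGraph V) (A : Amb G),
  IsGraphMap shell G (fun p => A.b p.1) ∧ Free A.b shell (fun p => A.b p.1)

/-- the sphere -/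
def sph {V : Type} (L : ℕ) (Φ : ℕ → C0 × (E → Fin 3) → V) (z : Fin 60 → ℤ) :
    Quotient (suspSetoid V 6) :=
  pt 6 (Φ (dd z - 1) (xc (clp z), pat z)) (min (hgt (clp z)) (6 - (dd z - (L + 1))))

/-- PACKET SPHG (uses XC1, XC2). The sphere is a graph map. -/
def S_SPHG : Prop := ∀ (V : Type) (G : SimpleGraph V) (A : Amb G) (L : ℕ)
  (Φ : ℕ → C0 × (E → Fin 3) → V) (c : V), Φ 0 = (fun p => A.b p.1) →
  (∀ l, IsGraphMap shell G (Φ l)) → (∀ l i, Near G (Φ l i) (Φ (l + 1) i)) →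
  (∀ l, L ≤ l → ∀ i, Φ l i = c) →
  IsGraphMap (grid (Fin 60)) (Susp G 6) (sph L Φ) ∧ ∀ z, L + 7 ≤ dd z → sph L Φ z = pt 6 c 0

/-- PACKET SPHE (uses L1UP, CUB, XC1, XC2). Exactly one unit cube of the sphere is essential. -/
def S_SPHE : Prop := ∀ (V : Type) (G : SimpleGraph V) (A : Amb G) (L : ℕ)
  (Φ : ℕ → C0 × (E → Fin 3) → V), Φ 0 = (fun p => A.b p.1) →
  (∀ l, 1 ≤ l → ∀ i y, Φ l i ≠ A.b y) → essSet A (sph L Φ) = {0}

/-- PACKET SPH (uses SHF, SPHG, SPHE and `Amb.att`). -/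
def S_SPH : Prop := ∀ (V : Type) (G : SimpleGraph V) (A : Amb G),
  ∃ (x₀ : Quotient (suspSetoid V 6)) (f : AMap 60 (Susp G 6) x₀), essSet A f.toFun = {0}

/-! ## Vanishing -/

/-- PACKET EMB (uses CONN). A copy of the core in the grid is a piece of a unit cube. -/
def S_EMB : Prop := ∀ q : Finset E → (Fin 60 → ℤ),
  (∀ S T, Core S → Core T → q S = q T → S = T) →
  (∀ S T, Core S → Core T → (cube E).Adj S T → Near (grid (Fin 60)) (q S) (q T)) →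
  ∃ (z : Fin 60 → ℤ) (π : Equiv.Perm (Fin 60)) (s : Fin 60 → ℤ), (∀ i, s i = 1 ∨ s i = -1) ∧
    ∀ S, Core S → q S = fun i => z i + if π i ∈ S then s i else 0

/-- PACKET FREEQ (uses EMB, COR6, CONN). -/
def S_FREEQ : Prop := ∀ (V : Type) (G : SimpleGraph V) (A : Amb G) (n : ℕ)
  (f : (Fin 60 → ℤ) → Quotient (suspSetoid V n)), IsGraphMap (grid (Fin 60)) (Susp G n) f →
  Free A.b ((grid (Fin 60)).induce {y | 4 ≤ lev (f y) ∧ lev (f y) + 4 ≤ n})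
    (fun y => lab (f y.1))

/-- the box of `y` in the expanded grid -/
def inBox (y t : Fin 60 → ℤ) : Prop := ∀ i, 127 * y i ≤ t i ∧ t i ≤ 127 * y i + 127

/-- PACKET HFUN. -/
def S_HFUN : Prop := ∀ h : (Fin 60 → ℤ) → ℕ, (∀ y y', (grid (Fin 60)).Adj y y' →
    h y ≤ h y' + 1) → (∃ y, h y ≤ 3) →
  ∃ H : (Fin 60 → ℤ) → ℕ, (∀ t t', (grid (Fin 60)).Adj t t' → H t ≤ H t' + 1) ∧
    (∀ t, H t ≤ 67) ∧ (∀ y t, inBox y t → h y ≤ 3 → H t = 0) ∧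
    (∀ y t, inBox y t → 64 ≤ h y → H t = 67)

/-- PACKET HT1 (uses HFUN). First homotopy: heights become constant across the walls. -/
def S_HT1 : Prop := ∀ (V : Type) (G : SimpleGraph V) (v : V)
  (f : AMap 60 (Susp G 67) (pt 67 v 0)), ∃ (H : (Fin 60 → ℤ) → ℕ)
    (g : AMap 60 (Susp G 67) (pt 67 v 0)),
    (∀ t t', (grid (Fin 60)).Adj t t' → H t ≤ H t' + 1) ∧ (∀ t, H t ≤ 67) ∧
    (∀ z : Fin 60 → ℤ, (0 < H (fun i => z i - z i / 128) ∧ H (fun i => z i - z i / 128) < 67) →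
      4 ≤ lev (f.toFun fun i => z i / 128) ∧ lev (f.toFun fun i => z i / 128) + 4 ≤ 67) ∧
    (∀ z, g.toFun z = pt 67 (lab (f.toFun fun i => z i / 128)) (H fun i => z i - z i / 128)) ∧
    Homotopic f g

/-- PACKET HT2 (uses HT1, FREEQ and `Amb.att`). -/
def S_VAN : Prop := ∀ (V : Type) (G : SimpleGraph V) (_ : Amb G) (v : V)
  (f g : AMap 60 (Susp G 67) (pt 67 v 0)), Homotopic f g

/-! ## The tower -/

/-- PACKET TW1 (uses XC2). Ranks on `X0`. -/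
def S_TW1 : Prop :=
  (∀ S, NP S → ∀ a, rk0 (xc S) a = min 3 (cnt a S : ℤ) ∧ rk1 (xc S) a = min 3 (cnt a Sᶜ : ℤ)) ∧
  (∀ y y', X0.Adj y y' → ∑ a, |rk0 y a - rk0 y' a| ≤ 1 ∧ ∑ a, |rk1 y a - rk1 y' a| ≤ 1) ∧
  (∀ y, (∃ a, rk0 y a = 3) ∧ ∃ a, rk1 y a = 3)

/-- PACKET TW2. `etaT` and `extT` are Lipschitz. -/
def S_TW2 : Prop :=
  (∀ s t, Valid s → Valid t → TN s t → etaT s ≤ etaT t + 1) ∧
  ∀ F₀ : C0 → Fin 3 → ℤ, (∀ y y', X0.Adj y y' → ∑ a, |F₀ y a - F₀ y' a| ≤ 1) →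
    (∀ y, ∃ a, F₀ y a = 3) →
    (∀ s t, Valid s → Valid t → TN s t → etaT s < 7 → etaT t < 7 →
      ∑ a, |extT F₀ s a - extT F₀ t a| ≤ 1) ∧
    ∀ s, etaT s < 7 → ∃ a, extT F₀ s a = 3

/-- PACKET TW3 (uses XC2). Neighbours and feet. -/
def S_TW3 : Prop :=
  (∀ S, xc S = .mid S → ∀ t, TE (.base (.mid S)) t ∨ TE t (.base (.mid S)) →
    (∃ T', (cube E).Adj S T' ∧ t = .base (xc T')) ∨ footT t = some S) ∧
  (∀ t S y, footT t = some S → (TE t (.base y) ∨ TE (.base y) t) → y = .mid S) ∧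
  (∀ s t S S', S ≠ S' → footT s = some S → footT t = some S' → (TE s t ∨ TE t s) →
    ∃ (m : ℕ) (A : SimpleGraph (Fin m)) (g : Fin m → T) (i j : Fin m), A.Adj i j ∧
      s = .cyl m A g i 0 ∧ t = .cyl m A g j 0 ∧ g i = .base (.mid S) ∧ g j = .base (.mid S'))

/-- PACKET TW4 (uses TW3, CONN). No copy of the core consists of feet. -/
def S_TW4 : Prop := ¬ ∃ φ : Finset E → T, (∀ S, Core S → Valid (φ S) ∧ footT (φ S) = some S) ∧
  ∀ S S', Core S → Core S' → (cube E).Adj S S' → (TE (φ S) (φ S') ∨ TE (φ S') (φ S))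

/-- PACKET TW5. Free maps of finite graphs are homotopic to constant maps in the big graph. -/
def S_TW5 : Prop := ∀ (H : Type) [Finite H] (A : SimpleGraph H) (g : H → BV),
  IsGraphMap A BG g → Free (fun y => (⟨.base y, trivial⟩ : BV)) A g →
  ∃ (L : ℕ) (Φ : ℕ → H → BV) (c : BV), Φ 0 = g ∧ (∀ l, IsGraphMap A BG (Φ l)) ∧
    (∀ l i, Near BG (Φ l i) (Φ (l + 1) i)) ∧ (∀ l, L ≤ l → ∀ i, Φ l i = c) ∧
    (∀ l, 1 ≤ l → ∀ i y, Φ l i ≠ (⟨.base y, trivial⟩ : BV))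

/-- PACKET AMB (uses TW1 - TW5). -/
def S_AMB : Prop := Nonempty (Amb BG)

end Pool.Agent.Helper71.SD
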